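import Pool.Agent.Y382.DN.Krr

/-!
# Symmetric designs decided by decomposable circuits

The points and the blocks of a symmetric `2-(v, k, lam)` design have names of `m` bits,
`2 ^ m ≤ D v`, in any labelling. A DNNF (`Dnnf`, in `Pool/Agent/Y622/NG/Defs.lean`) is a circuit with
`s` gates whose leaves are arbitrary functions of at most `w` bits, with unrestricted disjunctions and
with conjunctions of functions that depend on disjoint sets of variables; it decides from the `2 m` bits
of the names of a point and a block whether they are incident. Nondeterministic and ordered decision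
diagrams, for any order of the `2 m` bits (starting file `SmallWidth`: machines which read the two names
in parallel), are special cases up to factors `O(m)`, and such circuits can be exponentially smaller.

Then `k ≤ 2 D lam ^ 3 2 ^ w s` and `v ≤ 1 + 4 D ^ 2 lam ^ 5 4 ^ w s ^ 2`. So for every `lam` only
finitely many symmetric designs are decided by circuits of a given size: Hall's conjecture holds for
these designs. In other words the incidence relation of a symmetric design needs circuits with at least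
`c √v` gates, `c = c(lam, D, w)`; here no exponent is lost.

Proof. Two points are in `lam` common blocks, so that the relation contains no grid of `lam + 1` points
and `lam + 1` blocks; the theorem of `Pool/Agent/Y382/DN` in the starting tree bounds the number `v k`
of flags by `2 lam ^ 3 2 ^ w s 2 ^ m`, and `k (k - 1) = lam (v - 1)`.
-/

set_option autoImplicit false

namespace Pool.Agent.Results.MP_c38931_co.DecomposableCircuits

open Finset Pool.Agent.H607R2.BW Pool.Agent.Y382.DN

/-- the standard identity `k ^ 2 = k + lam (v - 1)` -/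
lemma ident (v k lam : ℕ) (hv : 1 ≤ v) (B : Fin v → Finset (Fin v))
    (hk : ∀ i, (B i).card = k)
    (hp : ∀ x y : Fin v, x ≠ y →
      (Finset.univ.filter (fun i => x ∈ B i ∧ y ∈ B i)).card = lam) :
    k * k = k + lam * (v - 1) := by
  classical
  have h1 : ∀ x, (Finset.univ.filter (fun i => x ∈ B i)).card * k
      = (Finset.univ.filter (fun i => x ∈ B i)).card + lam * (v - 1) := by
    intro x
    have e1 : ∑ y : Fin v, (Finset.univ.filter (fun i => x ∈ B i ∧ y ∈ B i)).card
        = (Finset.univ.filter (fun i => x ∈ B i)).card * k := by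
      simp_rw [Finset.card_filter]
      rw [Finset.sum_comm, Finset.sum_mul]
      refine Finset.sum_congr rfl fun i _ => ?_
      by_cases hx : x ∈ B i
      · simp [hx, hk i]
      · simp [hx]
    rw [← e1, ← Finset.add_sum_erase _ _ (Finset.mem_univ x)]
    congr 1
    · simp
    · rw [Finset.sum_congr rfl (g := fun _ => lam)]
      · simp [Finset.card_erase_of_mem, mul_comm]
      · intro y hy
        exact hp x y (Finset.ne_of_mem_erase hy).symm
  have hsum : ∑ x : Fin v, (Finset.univ.filter (fun i => x ∈ B i)).card = v * k := by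
    simp_rw [Finset.card_filter]
    rw [Finset.sum_comm]
    rw [Finset.sum_congr rfl (g := fun _ => k)]
    · simp
    · intro i _
      rw [← hk i]; simp
  have h2 : v * k * k = v * k + v * (lam * (v - 1)) := by
    have h3 : ∑ x : Fin v, (Finset.univ.filter (fun i => x ∈ B i)).card * k =
        ∑ x : Fin v, ((Finset.univ.filter (fun i => x ∈ B i)).card + lam * (v - 1)) :=
      Finset.sum_congr rfl (fun x _ => h1 x)
    rw [← Finset.sum_mul, Finset.sum_add_distrib, hsum] at h3
    simpa using h3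
  have h4 : v * (k * k) = v * (k + lam * (v - 1)) := by
    rw [← mul_assoc, h2]; ring
  exact Nat.eq_of_mul_eq_mul_left (by omega) h4

/-- no grid of `lam + 1` points and `lam + 1` blocks -/
lemma grid_free {v lam m : ℕ} (hlam : 1 ≤ lam) (B : Fin v → Finset (Fin v))
    (p b : Fin v → Str m) (hpi : Function.Injective p) (hbi : Function.Injective b)
    (hp : ∀ x y : Fin v, x ≠ y →
      (Finset.univ.filter (fun i => x ∈ B i ∧ y ∈ B i)).card = lam) :
    GridFree (lam + 1) (fun x y : Str m => ∃ i j, i ∈ B j ∧ x = p i ∧ y = b j) := by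
  classical
  intro x y hx hy
  by_contra hcon
  push Not at hcon
  have h0 : (0 : Fin (lam + 1)) ≠ Fin.last lam := by
    intro h
    have := congrArg Fin.val h
    simp at this
    omega
  -- the two points
  obtain ⟨i0, j00, -, e0, -⟩ := hcon 0 0
  obtain ⟨i1, j10, -, e1, -⟩ := hcon (Fin.last lam) 0
  have hne : i0 ≠ i1 := by
    rintro rfl
    exact h0 (hx (e0.trans e1.symm))
  -- the blocks
  have hb : ∀ j : Fin (lam + 1), ∃ j' : Fin v, y j = b j' ∧ i0 ∈ B j' ∧ i1 ∈ B j' := by
    intro j
    obtain ⟨a, c, h1, h2, h3⟩ := hcon 0 j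
    obtain ⟨a', c', h1', h2', h3'⟩ := hcon (Fin.last lam) j
    have ea : a = i0 := hpi (h2.symm.trans e0)
    have ea' : a' = i1 := hpi (h2'.symm.trans e1)
    have ec : c' = c := hbi (h3'.symm.trans h3)
    subst ea ea' ec
    exact ⟨c', h3, h1, h1'⟩
  choose f hf1 hf2 hf3 using hb
  have hfi : Function.Injective f := by
    intro j j' h
    apply hy
    rw [hf1, hf1, h]
  have h4 : (Finset.univ : Finset (Fin (lam + 1))).card ≤
      (Finset.univ.filter (fun i => i0 ∈ B i ∧ i1 ∈ B i)).card := by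
    refine Finset.card_le_card_of_injOn f ?_ hfi.injOn
    intro j _
    simp only [Finset.coe_filter, Finset.mem_univ, true_and, Set.mem_ofPred_eq]
    exact ⟨hf2 j, hf3 j⟩
  rw [hp _ _ hne, Finset.card_univ, Fintype.card_fin] at h4
  omega

/-- the number of flags -/
lemma flags {v k m : ℕ} (B : Fin v → Finset (Fin v)) (p b : Fin v → Str m)
    (hpi : Function.Injective p) (hbi : Function.Injective b) (hk : ∀ i, (B i).card = k) :
    v * k ≤ Nat.card {q : Str m × Str m // ∃ i j, i ∈ B j ∧ q.1 = p i ∧ q.2 = b j} := by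
  classical
  have h1 : v * k = ((Finset.univ : Finset (Fin v)).sigma fun j => B j).card := by
    rw [Finset.card_sigma]
    simp [hk]
  have h2 : ((Finset.univ : Finset (Fin v)).sigma fun j => B j).card =
      Nat.card {z : (_ : Fin v) × Fin v // z ∈ (Finset.univ : Finset (Fin v)).sigma fun j => B j} := by
    rw [Nat.card_eq_fintype_card, Fintype.card_coe]
  rw [h1, h2]
  refine Nat.card_le_card_of_injective
    (fun z => ⟨(p z.1.2, b z.1.1), z.1.2, z.1.1, (Finset.mem_sigma.1 z.2).2, rfl, rfl⟩) ?_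
  rintro ⟨⟨j, i⟩, h⟩ ⟨⟨j', i'⟩, h'⟩ he
  have he' := congrArg Subtype.val he
  simp only [Prod.mk.injEq] at he'
  have e1 := hpi he'.1
  have e2 := hbi he'.2
  subst e1 e2
  rfl

/-- (1) The bounds for `k` and `v`. (2) The incidence relation of a symmetric design needs circuits
of size at least `√(v - 1) / (2 D lam ^ 3 2 ^ w)`. (3) Finiteness for a given `lam`, a given size of
the circuits and a given length of the names. -/
theorem result :
    (∀ (lam D m s w v k : ℕ) (B : Fin v → Finset (Fin v)) (p b : Fin v → Str m), 1 ≤ lam →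
      2 ^ m ≤ D * v → (∀ i, (B i).card = k) →
      (∀ x y : Fin v, x ≠ y →
        (Finset.univ.filter (fun i => x ∈ B i ∧ y ∈ B i)).card = lam) →
      Function.Injective p → Function.Injective b →
      PairDnnf m s w (fun x y => ∃ i j, i ∈ B j ∧ x = p i ∧ y = b j) →
      k ≤ 2 * D * lam ^ 3 * 2 ^ w * s ∧ v ≤ 1 + 4 * D ^ 2 * lam ^ 5 * 4 ^ w * s ^ 2) ∧
    (∀ (lam D m s w v k : ℕ) (B : Fin v → Finset (Fin v)) (p b : Fin v → Str m), 1 ≤ lam →
      2 ^ m ≤ D * v → (∀ i, (B i).card = k) →
      (∀ x y : Fin v, x ≠ y →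
        (Finset.univ.filter (fun i => x ∈ B i ∧ y ∈ B i)).card = lam) →
      Function.Injective p → Function.Injective b →
      PairDnnf m s w (fun x y => ∃ i j, i ∈ B j ∧ x = p i ∧ y = b j) →
      Real.sqrt ((v : ℝ) - 1) ≤ 2 * D * lam ^ 3 * 2 ^ w * s) ∧
    (∀ lam D s w : ℕ, 1 ≤ lam → ∃ N : ℕ,
      ∀ (m v k : ℕ) (B : Fin v → Finset (Fin v)) (p b : Fin v → Str m),
      2 ^ m ≤ D * v → (∀ i, (B i).card = k) →
      (∀ x y : Fin v, x ≠ y →
        (Finset.univ.filter (fun i => x ∈ B i ∧ y ∈ B i)).card = lam) →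
      Function.Injective p → Function.Injective b →
      PairDnnf m s w (fun x y => ∃ i j, i ∈ B j ∧ x = p i ∧ y = b j) → v ≤ N) := by
  have key : ∀ (lam D m s w v k : ℕ) (B : Fin v → Finset (Fin v)) (p b : Fin v → Str m),
      1 ≤ lam → 2 ^ m ≤ D * v → (∀ i, (B i).card = k) →
      (∀ x y : Fin v, x ≠ y →
        (Finset.univ.filter (fun i => x ∈ B i ∧ y ∈ B i)).card = lam) →
      Function.Injective p → Function.Injective b →
      PairDnnf m s w (fun x y => ∃ i j, i ∈ B j ∧ x = p i ∧ y = b j) →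
      k ≤ 2 * D * lam ^ 3 * 2 ^ w * s ∧ v ≤ 1 + 4 * D ^ 2 * lam ^ 5 * 4 ^ w * s ^ 2 := by
    intro lam D m s w v k B p b hlam hm hk hl hp hb hC
    have hv : 1 ≤ v := by
      rcases Nat.eq_zero_or_pos v with rfl | h
      · have : 0 < 2 ^ m := by positivity
        omega
      · exact h
    have h1 := t_KRR m s w (lam + 1) _ (by omega) hC (grid_free hlam B p b hp hb hl)
    rw [Nat.add_sub_cancel] at h1
    have h2 := (flags B p b hp hb hk).trans h1
    have h3 : v * k ≤ v * (2 * D * lam ^ 3 * 2 ^ w * s) := by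
      calc v * k ≤ 2 * lam ^ 3 * 2 ^ w * (s * 2 ^ m) := h2
        _ ≤ 2 * lam ^ 3 * 2 ^ w * (s * (D * v)) := by gcongr
        _ = v * (2 * D * lam ^ 3 * 2 ^ w * s) := by ring
    have h4 : k ≤ 2 * D * lam ^ 3 * 2 ^ w * s := Nat.le_of_mul_le_mul_left h3 (by omega)
    refine ⟨h4, ?_⟩
    have h5 := ident v k lam hv B hk hl
    have h6 : lam * (v - 1) ≤ lam * (4 * D ^ 2 * lam ^ 5 * 4 ^ w * s ^ 2) := by
      calc lam * (v - 1) ≤ k * k := by omega
        _ ≤ (2 * D * lam ^ 3 * 2 ^ w * s) * (2 * D * lam ^ 3 * 2 ^ w * s) := Nat.mul_le_mul h4 h4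
        _ = lam * (4 * D ^ 2 * lam ^ 5 * 4 ^ w * s ^ 2) := by
            rw [show (4 : ℕ) ^ w = 2 ^ w * 2 ^ w by rw [← mul_pow]; norm_num]
            ring
    have h7 : v - 1 ≤ 4 * D ^ 2 * lam ^ 5 * 4 ^ w * s ^ 2 := Nat.le_of_mul_le_mul_left h6 (by omega)
    omega
  refine ⟨key, ?_, ?_⟩
  · intro lam D m s w v k B p b hlam hm hk hl hp hb hC
    obtain ⟨-, h⟩ := key lam D m s w v k B p b hlam hm hk hl hp hb hC
    apply Real.sqrt_le_iff.2
    refine ⟨by positivity, ?_⟩
    have h1 : (v : ℝ) ≤ 1 + 4 * D ^ 2 * lam ^ 5 * 4 ^ w * s ^ 2 := by exact_mod_cast h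
    have h2 : (1 : ℝ) ≤ lam := by exact_mod_cast hlam
    have h3 : (lam : ℝ) ^ 5 ≤ (lam : ℝ) ^ 6 := pow_le_pow_right₀ h2 (by norm_num)
    calc (v : ℝ) - 1 ≤ 4 * D ^ 2 * lam ^ 5 * 4 ^ w * s ^ 2 := by linarith
      _ ≤ 4 * D ^ 2 * lam ^ 6 * 4 ^ w * s ^ 2 := by gcongr
      _ = (2 * D * lam ^ 3 * 2 ^ w * s) ^ 2 := by
          rw [show (4 : ℝ) ^ w = 2 ^ w * 2 ^ w by rw [← mul_pow]; norm_num]
          ring
  · intro lam D s w hlam
    exact ⟨1 + 4 * D ^ 2 * lam ^ 5 * 4 ^ w * s ^ 2, fun m v k B p b hm hk hl hp hb hC =>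
      (key lam D m s w v k B p b hlam hm hk hl hp hb hC).2⟩

end Pool.Agent.Results.MP_c38931_co.DecomposableCircuits
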