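import Pool.Agent.Run7.h156.ES.Hallg

/-!
# Symmetric designs decided by circuits which read the names few times

The points and the blocks of a symmetric `2-(v, k, lam)` design have names, strings of `m` bits,
`2 ^ m ≤ D v`, in any labelling. Suppose that the set of the incident pairs (name of the point, name
of the block) is the union of `L ≤ v ^ β` sets, each of which is decided by a circuit of the
following kind. The gates compute arbitrary functions; a gate reads at most `κ` words and bits
of the two names together; a word has `b` bits; the treewidth of the circuit (of the graph of its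
words) is at most `θ`; and `(κ + 1) (θ + 1) b ≤ δ log₂ v`. Every bit may be read several times, in
any order: the number of the wires from the bits of each name is at most `r m`, where a bit which is
never read counts one.

Theorem. If for some `g ≥ 2` and `i ≥ 0`

  `β + 1 / 2 < (g - 1 / 2) (g - (r - i) (g - 1)) / g ^ (i + 1)`

then `v` is bounded in terms of `lam`, `D`, `r`, `β`, `g`, `i`, where `δ > 0` depends on `lam`, `r`,
`β`, `g`, `i` only: Hall's conjecture holds for these designs. For `g = 2`, `i = 1` the condition is
`β < (5 - 3 r) / 8`, so that all `r < 5 / 3` are allowed; for `r = 1`, `i = 1` and large `g` all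
`β < 1 / 2` are allowed.

`Piece`, `UnionOf`: `Pool/Agent/Run7/h156/ES/Pieces.lean`; `WordCircuit`:
`Pool/Agent/Run7/h156/CX/Circ.lean`; `Inc`: `Pool/Agent/N598/BT/Design.lean`.

Proof. The circuit is cut into few parts with few words between them, so that each part reads few
bits. Each part receives one of `g` colours at random; a bit whose parts all have the colour `l`
belongs to the group `l`. For a good colouring each name has about `α m` bits in each of the `g`
groups, for every `α < (g - (r - i) (g - 1)) / g ^ (i + 1)`. For a fixed value of the remaining bits
and of the words between the parts, the accepted pairs form a product of relations of the bits of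
the groups. As there is no `K_{2, lam + 1}`, at most one of the factors has large degrees, and this
one has no `K_{2, lam + 1}`; so the number of the accepted pairs is at most `v ^ (3 / 2 - β - η)`,
whereas there are `v k ≥ v √(v - 1)` incident pairs.
-/

set_option autoImplicit false

namespace Pool.Agent.Results.MP_c38931_co.FewReadsSmallTreewidth

open Run7.h156.ES

theorem result (lam g i : ℕ) (r β : ℝ) (hlam : 1 ≤ lam) (hg : 2 ≤ g) (hr : 1 ≤ r) (hβ0 : 0 ≤ β)
    (hβ : β + 1 / 2 < ((g:ℝ) - 1 / 2) * ((g - (r - i) * (g - 1)) / (g:ℝ) ^ (i + 1))) :
    ∃ δ : ℝ, 0 < δ ∧ ∀ D : ℕ, ∃ N : ℕ, ∀ (v k : ℕ) (B : Fin v → Finset (Fin v)),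
      (∀ j, (B j).card = k) →
      (∀ x y : Fin v, x ≠ y →
        (Finset.univ.filter (fun j => x ∈ B j ∧ y ∈ B j)).card = lam) →
      ∀ (m L : ℕ) (p b : Fin v → Fin m → Bool),
      Function.Injective p → Function.Injective b → 2 ^ m ≤ D * v → (L : ℝ) ≤ (v : ℝ) ^ β →
      UnionOf r (δ * Real.logb 2 v) L (Pool.Agent.N598.BT.Inc B p b) → v ≤ N :=
  hall_g lam g i r β hlam hg hr hβ0 hβ

end Pool.Agent.Results.MP_c38931_co.FewReadsSmallTreewidth
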