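import Pool.Agent.Run7.h33.AB.SymLL

set_option autoImplicit false

/-!
# Fixed `lam`: groups of automorphisms of symmetric designs are small

Let `lam ≥ 2` be fixed and let `k` be large. An abelian group of automorphisms of a symmetric
`2-(v, k, lam)` design has at most `v` elements; if it has more than `(1 + 2 ^ (-20)) v / lam`
elements, then it has a regular orbit on the points or on the blocks. A group of automorphisms with
derived length `d` has at most `(2 v) ^ (2 d)` elements, and every group of automorphisms has at most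
`v ^ O(log log v)` elements, where the implied constant depends on `lam` only. For projective planes
(`lam = 1`) this bound for the collineation groups is classical.

Proof. The incidence graph has `2 v` vertices of degree `k`, `2 v ≤ k ^ 2`, and any two of them have
at most `lam` common neighbours. Let `P` be an abelian group of automorphisms of a graph with
`n ≤ B d ^ 2` vertices, all degrees larger than `d + t` and at most `t` common neighbours. All
points of an orbit have the same stabilizer. Let `x` be a moved vertex with the smallest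
stabilizer. Every `z` satisfies `|z ^ P_x| ≤ |x ^ P_z|`. Counting (Kővári, Sós and Turán) shows that
there are many `z` such that the orbit of `z` under `P_x` has bounded length, and then two vertices
`x`, `w` such that the stabilizer of `x` and `w` fixes at least `d ^ 2 / (32 t ^ 3 B ^ 2)` vertices
which are not fixed by `P` (`AB/St1.lean`, `AB/St2.lean`, `AB/Base.lean`). For a design an
automorphism with so many fixed points and blocks is trivial. So two points or blocks have trivial
stabilizer and `|P| ≤ |x ^ P| |w ^ P|`; orbits that are not regular are contained in the set of fixed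
points of a non-trivial group, which has at most `k / lam + O(√k)` elements if the group has more
than `lam` elements (`N345/Sym`).

If `N` is the last term of the derived series of `P`, then the stabilizer `Q` of `x` and `w` satisfies
`Q ∩ N = 1` for suitable `x`, `w`, so the derived length of `Q` is smaller than that of `P`. The
derived length of a nilpotent group is at most `log log |P| + 2` (`AB/Ser.lean`). In general
`O(log log v)` points and blocks generate the design under the operation of taking common
neighbours, so all primes that divide the order of their stabilizer are at most `lam`.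
-/

namespace Pool.Agent.Results.MP_c38931_co.GroupOrders

/-- The blocks `B i` (`i : Fin v`) form a symmetric `2-(v, k, lam)` design on the points `Fin v`
with `2 ≤ k < v`. -/
structure IsSymmetricDesign (v k lam : ℕ) (B : Fin v → Finset (Fin v)) : Prop where
  two_le : 2 ≤ k
  lt : k < v
  size : ∀ i, (B i).card = k
  pair : ∀ x y : Fin v, x ≠ y →
    (Finset.univ.filter (fun i => x ∈ B i ∧ y ∈ B i)).card = lam

/-- All permutations in the group `H` map every block to a block. -/
def IsAutomorphismGroup {v : ℕ} (B : Fin v → Finset (Fin v))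
    (H : Subgroup (Equiv.Perm (Fin v))) : Prop :=
  ∀ σ ∈ H, ∀ i, ∃ j, (B i).image σ = B j

/-- Any two elements of `H` commute. -/
def IsAbelian {v : ℕ} (H : Subgroup (Equiv.Perm (Fin v))) : Prop :=
  ∀ σ ∈ H, ∀ τ ∈ H, σ * τ = τ * σ

/-- Let `lam ≥ 2`. Let `H` be a group of automorphisms of a symmetric `2-(v, k, lam)` design with
`k ≥ 2 ^ 51 lam ^ 9`. (1) If `H` is abelian, then `H` has at most `v` elements, and some point or some
block has trivial stabilizer in `H`, or `H` has at most `(1 + 2 ^ (-20)) v / lam` elements. (2) If the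
`d`-th term of the derived series of `H` is trivial, then `H` has at most `(2 v) ^ (2 d)` elements.
(3) If `H` is nilpotent, then `H` has at most `(2 v) ^ (4 log log (2 v) + 20)` elements. (4) In
general `H` has at most `(2 v) ^ (40020 lam (log lam + 1 + log log (2 v)))` elements (`log` is the
integer part of the logarithm to the base `2`). (5) Only finitely many pairs `(v, k)` are the
parameters of a symmetric `2-(v, k, lam)` design with an abelian group of automorphisms with more
than `v` elements or with a group of automorphisms with more than `v ^ (2 ^ 18 lam log log v)`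
elements. -/
theorem result (lam : ℕ) (hlam : 2 ≤ lam) :
    (∀ (v k : ℕ) (B : Fin v → Finset (Fin v)) (H : Subgroup (Equiv.Perm (Fin v))),
      IsSymmetricDesign v k lam B → IsAutomorphismGroup B H → 2 ^ 51 * lam ^ 9 ≤ k →
      (IsAbelian H → Nat.card H ≤ v ∧ ((∃ x, ∀ σ ∈ H, σ x = x → σ = 1) ∨
        (∃ i, ∀ σ ∈ H, (B i).image σ = B i → σ = 1) ∨
        2 ^ 20 * lam * Nat.card H ≤ (2 ^ 20 + 1) * v)) ∧
      (∀ d, derivedSeries H d = ⊥ → Nat.card H ≤ (2 * v) ^ (2 * d)) ∧
      (Group.IsNilpotent H →
        Nat.card H ≤ (2 * v) ^ (4 * Nat.log 2 (Nat.log 2 (2 * v)) + 20)) ∧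
      Nat.card H ≤ (2 * v) ^
        (40020 * lam * (Nat.log 2 lam + 1 + Nat.log 2 (Nat.log 2 (2 * v))))) ∧
    {q : ℕ × ℕ | ∃ (B : Fin q.1 → Finset (Fin q.1)) (H : Subgroup (Equiv.Perm (Fin q.1))),
      IsSymmetricDesign q.1 q.2 lam B ∧ IsAutomorphismGroup B H ∧
      ((IsAbelian H ∧ q.1 < Nat.card H) ∨
        q.1 ^ (2 ^ 18 * lam * Nat.log 2 (Nat.log 2 q.1)) < Nat.card H)}.Finite := by
  have hlam1 : 1 ≤ lam := by omega
  have h1 : ∀ (v k : ℕ) (B : Fin v → Finset (Fin v)) (H : Subgroup (Equiv.Perm (Fin v))),
      IsSymmetricDesign v k lam B → IsAutomorphismGroup B H → 2 ^ 51 * lam ^ 9 ≤ k →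
      (IsAbelian H → Nat.card H ≤ v ∧ ((∃ x, ∀ σ ∈ H, σ x = x → σ = 1) ∨
        (∃ i, ∀ σ ∈ H, (B i).image σ = B i → σ = 1) ∨
        2 ^ 20 * lam * Nat.card H ≤ (2 ^ 20 + 1) * v)) ∧
      (∀ d, derivedSeries H d = ⊥ → Nat.card H ≤ (2 * v) ^ (2 * d)) ∧
      (Group.IsNilpotent H →
        Nat.card H ≤ (2 * v) ^ (4 * Nat.log 2 (Nat.log 2 (2 * v)) + 20)) ∧
      Nat.card H ≤ (2 * v) ^
        (40020 * lam * (Nat.log 2 lam + 1 + Nat.log 2 (Nat.log 2 (2 * v)))) := by
    intro v k B H hB hH hk
    have hd : Pool.Agent.N345.Sym.Des v k lam B := ⟨hB.two_le, hB.lt, hB.size, hB.pair⟩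
    exact ⟨fun hc => Run7.h33.AB.perm_ab hd hlam hk hH hc,
      fun d hd' => Run7.h33.AB.perm_der hd hlam1 hk hH d hd',
      fun hn => Run7.h33.AB.perm_nil hd hlam1 hk hH hn,
      Run7.h33.AB.perm_all_ll hd hlam hk hH⟩
  have hvk : ∀ (v k : ℕ) (B : Fin v → Finset (Fin v)), IsSymmetricDesign v k lam B →
      v ≤ k * k := by
    intro v k B hB
    have hd : Pool.Agent.N345.Sym.Des v k lam B := ⟨hB.two_le, hB.lt, hB.size, hB.pair⟩
    exact (Nat.le_mul_of_pos_left v hlam1).trans (hd.lam_v hlam1)
  refine ⟨h1, ?_⟩
  obtain ⟨N, hN⟩ : ∃ N, N = 2 ^ (4 * lam) + (2 ^ 51 * lam ^ 9) * (2 ^ 51 * lam ^ 9) :=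
    ⟨_, rfl⟩
  refine Set.Finite.subset ((Set.finite_Iic N).prod (Set.finite_Iic N)) ?_
  rintro ⟨v, k⟩ ⟨B, H, hB, hH, hcase⟩
  simp only at B H hB hH hcase
  have hkv := hB.lt
  have hv : v ≤ N := by
    by_contra hcon
    push Not at hcon
    have e1 : 2 ^ 51 * lam ^ 9 ≤ k := by
      by_contra hcon2
      push Not at hcon2
      have e2 : k * k ≤ (2 ^ 51 * lam ^ 9) * (2 ^ 51 * lam ^ 9) :=
        Nat.mul_le_mul hcon2.le hcon2.le
      have e3 := (hvk v k B hB).trans e2
      have e4 : (2 ^ 51 * lam ^ 9) * (2 ^ 51 * lam ^ 9) ≤ N := by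
        rw [hN]
        exact Nat.le_add_left _ _
      exact absurd (e3.trans e4) (not_le.2 hcon)
    obtain ⟨h2, -, -, h3⟩ := h1 v k B H hB hH e1
    rcases hcase with ⟨hc, hlt⟩ | hlt
    · have := (h2 hc).1
      omega
    · have e2 : 2 ^ (4 * lam) ≤ v := by
        refine le_trans ?_ hcon.le
        rw [hN]
        exact Nat.le_add_right _ _
      have e3 := h3.trans (Run7.h33.AB.ll_arith hlam e2)
      omega
  exact ⟨hv, hkv.le.trans hv⟩

end Pool.Agent.Results.MP_c38931_co.GroupOrders
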