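import Pool.Agent.Run7.h203.SC.Rs

/-!
# Hall's conjecture for semilinear designs and for designs decided by few equality queries

Let `B` be a symmetric `2-(v, k, lam)` design.

1. Two players know a point and a block. They may ask whether a label of the point equals a label of
   the block, or whether it is smaller (for labels which are numbers less than `2 ^ l`). At the end
   they accept the pairs of a relation without induced matchings with more than `κ` edges (for
   example the nonzero entries of a matrix of rank `κ` over some field). The weight of a protocol is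
   at most `3 ^ q` for `q` equality queries, and at most `(2 l + 1) ^ q` for `q` queries of both kinds,
   `l ≥ 1`. If a random protocol of this kind never accepts a pair which is not incident, and
   accepts each flag with probability at least `p`, then `p * k` is at most `2 lam` times the mean of
   the weight times `κ`.
2. If the incidence of points and blocks is a Boolean combination of `s` comparisons of real labels,
   `k ≤ 2 lam (2 log₂ v + 5) ^ s`.
3. So for given `lam ≥ 1` and `s` there are only finitely many symmetric designs of this kind: Hall's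
   conjecture holds for semilinear designs of bounded complexity, and this is true also for planes.
4. By 1 and `v ≤ 1 + k ^ 2`, a symmetric design needs `(1/2) log_3 v - O(1)` equality queries for given
   `lam` and `κ`, and Hall's conjecture holds for all designs which need fewer queries.

Proof. A minimal set of points which meets all blocks between two sets `X` and `Y` in a leaf has at
most `κ` elements, and every other point of `X` is on at most `lam κ` blocks of `Y`. Then induction on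
the protocol.
-/

set_option autoImplicit false

namespace Run7.h203.SC.LProt

variable {V : Type}

/-- the largest number of queries on a run -/
def depth : LProt V → ℕ
  | leaf _ => 0
  | query _ _ _ yes no => max yes.depth no.depth + 1
  | less _ _ _ yes no => max yes.depth no.depth + 1

/-- the numbers which are compared are less than `2 ^ size`, and `size` is at least one -/
def size : LProt V → ℕ
  | leaf _ => 1
  | query _ _ _ yes no => max yes.size no.size
  | less l _ _ yes no => max l (max yes.size no.size)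

lemma one_le_size : ∀ T : LProt V, 1 ≤ T.size
  | leaf _ => le_rfl
  | query _ _ _ yes _ => (one_le_size yes).trans (le_max_left _ _)
  | less _ _ _ yes _ => (one_le_size yes).trans ((le_max_left _ _).trans (le_max_right _ _))

lemma wt_le_pow_aux (b : ℕ) (hb : 1 ≤ b) : ∀ T : LProt V, T.size ≤ b →
    T.wt ≤ (2 * b + 1) ^ T.depth
  | leaf _, _ => by simp [wt, depth]
  | query _ _ _ yes no, h => by
    have h1 := wt_le_pow_aux b hb yes ((le_max_left _ _).trans h)
    have h2 := wt_le_pow_aux b hb no ((le_max_right _ _).trans h)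
    have h3 : (2 * b + 1) ^ yes.depth ≤ (2 * b + 1) ^ max yes.depth no.depth :=
      Nat.pow_le_pow_right (by omega) (le_max_left _ _)
    have h4 : (2 * b + 1) ^ no.depth ≤ (2 * b + 1) ^ max yes.depth no.depth :=
      Nat.pow_le_pow_right (by omega) (le_max_right _ _)
    simp only [wt, depth]
    rw [pow_succ, mul_comm ((2 * b + 1) ^ max yes.depth no.depth)]
    calc yes.wt + 2 * no.wt ≤ 3 * (2 * b + 1) ^ max yes.depth no.depth := by omega
      _ ≤ (2 * b + 1) * (2 * b + 1) ^ max yes.depth no.depth := Nat.mul_le_mul_right _ (by omega)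
  | less l _ _ yes no, h => by
    have hl : l ≤ b := (le_max_left _ _).trans h
    have h1 := wt_le_pow_aux b hb yes ((le_max_left _ _).trans ((le_max_right _ _).trans h))
    have h2 := wt_le_pow_aux b hb no ((le_max_right _ _).trans ((le_max_right _ _).trans h))
    have h3 : (2 * b + 1) ^ yes.depth ≤ (2 * b + 1) ^ max yes.depth no.depth :=
      Nat.pow_le_pow_right (by omega) (le_max_left _ _)
    have h4 : (2 * b + 1) ^ no.depth ≤ (2 * b + 1) ^ max yes.depth no.depth :=
      Nat.pow_le_pow_right (by omega) (le_max_right _ _)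
    simp only [wt, depth]
    rw [pow_succ, mul_comm ((2 * b + 1) ^ max yes.depth no.depth)]
    calc l * yes.wt + (l + 1) * no.wt ≤ b * (2 * b + 1) ^ max yes.depth no.depth +
          (b + 1) * (2 * b + 1) ^ max yes.depth no.depth :=
          Nat.add_le_add (Nat.mul_le_mul hl (h1.trans h3))
            (Nat.mul_le_mul (by omega) (h2.trans h4))
      _ = (2 * b + 1) * (2 * b + 1) ^ max yes.depth no.depth := by ring

lemma wt_le_pow (T : LProt V) : T.wt ≤ (2 * T.size + 1) ^ T.depth :=
  wt_le_pow_aux _ T.one_le_size T le_rfl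

end Run7.h203.SC.LProt

namespace Pool.Agent.Results.MP_c38931_co.SemilinearDesigns

open Finset Run7.h203.SC

/-- the standard identity `k ^ 2 = k + lam (v - 1)` -/
lemma ident (v k lam : ℕ) (hv : 1 ≤ v) (B : Fin v → Finset (Fin v))
    (hk : ∀ i, (B i).card = k)
    (hp : ∀ x y : Fin v, x ≠ y →
      (Finset.univ.filter (fun i => x ∈ B i ∧ y ∈ B i)).card = lam) :
    k * k = k + lam * (v - 1) := by
  classical
  have h1 : ∀ x, (Finset.univ.filter (fun i => x ∈ B i)).card * k
      = (Finset.univ.filter (fun i => x ∈ B i)).card + lam * (v - 1) := by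
    intro x
    have e1 : ∑ y : Fin v, (Finset.univ.filter (fun i => x ∈ B i ∧ y ∈ B i)).card
        = (Finset.univ.filter (fun i => x ∈ B i)).card * k := by
      simp_rw [Finset.card_filter]
      rw [Finset.sum_comm, Finset.sum_mul]
      refine Finset.sum_congr rfl fun i _ => ?_
      by_cases hx : x ∈ B i
      · simp [hx, hk i]
      · simp [hx]
    rw [← e1, ← Finset.add_sum_erase _ _ (Finset.mem_univ x)]
    congr 1
    · simp
    · rw [Finset.sum_congr rfl (g := fun _ => lam)]
      · simp [Finset.card_erase_of_mem, mul_comm]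
      · intro y hy
        exact hp x y (Finset.ne_of_mem_erase hy).symm
  have hsum : ∑ x : Fin v, (Finset.univ.filter (fun i => x ∈ B i)).card = v * k := by
    simp_rw [Finset.card_filter]
    rw [Finset.sum_comm]
    rw [Finset.sum_congr rfl (g := fun _ => k)]
    · simp
    · intro i _
      rw [← hk i]; simp
  have h2 : v * k * k = v * k + v * (lam * (v - 1)) := by
    have h3 : ∑ x : Fin v, (Finset.univ.filter (fun i => x ∈ B i)).card * k =
        ∑ x : Fin v, ((Finset.univ.filter (fun i => x ∈ B i)).card + lam * (v - 1)) :=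
      Finset.sum_congr rfl (fun x _ => h1 x)
    rw [← Finset.sum_mul, Finset.sum_add_distrib, hsum] at h3
    simpa using h3
  have h4 : v * (k * k) = v * (k + lam * (v - 1)) := by
    rw [← mul_assoc, h2]; ring
  exact Nat.eq_of_mul_eq_mul_left (by omega) h4

open Classical in
/-- the leaves -/
lemma des_leaf {V : Type} [Fintype V] {κ lam : ℕ} (hlam : 1 ≤ lam) {R : V → V → Prop}
    (hR : NoMatching κ R) (X Y : Finset V)
    (h : ∀ x ∈ X, ∀ x' ∈ X, x ≠ x' → (Y.filter (fun b => R x b ∧ R x' b)).card ≤ lam) :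
    ((X ×ˢ Y).filter (fun p => R p.1 p.2)).card ≤ (lam * κ) * (X.card + Y.card) := by
  obtain ⟨Z, hZ, hZκ, hZc⟩ := cover_rows hR X
  rw [card_filter, sum_product]
  have hrow : ∀ u ∈ X, (∑ b ∈ Y, if R (u, b).1 (u, b).2 then 1 else 0) ≤
      lam * κ + (if u ∈ Z then Y.card else 0) := by
    intro u hu
    rw [← card_filter]
    by_cases huZ : u ∈ Z
    · rw [if_pos huZ]
      exact (card_filter_le _ _).trans (Nat.le_add_left _ _)
    · rw [if_neg huZ, add_zero]
      have h1 : Y.filter (fun b => R (u, b).1 (u, b).2) ⊆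
          Z.biUnion (fun z => Y.filter (fun b => R u b ∧ R z b)) := by
        intro b hb
        rw [mem_filter] at hb
        obtain ⟨z, hz, hzb⟩ := hZc u hu b hb.2
        rw [mem_biUnion]
        exact ⟨z, hz, mem_filter.2 ⟨hb.1, hb.2, hzb⟩⟩
      refine (card_le_card h1).trans (card_biUnion_le.trans ?_)
      have h2 : ∑ z ∈ Z, (Y.filter (fun b => R u b ∧ R z b)).card ≤ ∑ _z ∈ Z, lam := by
        apply sum_le_sum
        intro z hz
        apply h u hu z (hZ hz)
        rintro rfl
        exact huZ hz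
      refine h2.trans ?_
      rw [sum_const, smul_eq_mul, mul_comm]
      exact Nat.mul_le_mul_left _ hZκ
  refine (sum_le_sum hrow).trans ?_
  rw [sum_add_distrib, sum_const, smul_eq_mul]
  have h3 : ∑ u ∈ X, (if u ∈ Z then Y.card else 0) ≤ κ * Y.card := by
    rw [← sum_filter, sum_const, smul_eq_mul]
    apply Nat.mul_le_mul_right
    refine le_trans (card_le_card ?_) hZκ
    intro u hu
    exact (mem_filter.1 hu).2
  calc X.card * (lam * κ) + ∑ u ∈ X, (if u ∈ Z then Y.card else 0)
      ≤ X.card * (lam * κ) + κ * Y.card := Nat.add_le_add_left h3 _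
    _ ≤ X.card * (lam * κ) + (lam * κ) * Y.card :=
        Nat.add_le_add_left (Nat.mul_le_mul_right _ (Nat.le_mul_of_pos_left _ hlam)) _
    _ = _ := by ring

open Classical in
/-- the bound for `k` -/
theorem design_bound {lam v k : ℕ} (hv : 1 ≤ v) (hlam : 1 ≤ lam) (B : Fin v → Finset (Fin v))
    (hk : ∀ i, (B i).card = k)
    (hB : ∀ x y : Fin v, x ≠ y →
      (Finset.univ.filter (fun i => x ∈ B i ∧ y ∈ B i)).card = lam)
    (p : ℝ) (N : ℕ) (T : Fin N → LProt (Fin v)) (κ : Fin N → ℕ) (q : Fin N → ℝ)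
    (hq : ∀ i, 0 ≤ q i) (hκ : ∀ i, (T i).Leaves (NoMatching (κ i)))
    (hT : ∀ i x b, (T i).Accepts x b → x ∈ B b)
    (hp : ∀ x b, x ∈ B b → p ≤ ∑ i, if (T i).Accepts x b then q i else 0) :
    p * k ≤ 2 * lam * ∑ i, q i * ((T i).wt * κ i) := by
  set E : Finset (Fin v × Fin v) := (univ ×ˢ univ).filter (fun z => z.1 ∈ B z.2) with hE
  have hEc : E.card = v * k := by
    rw [hE, card_filter, sum_product_right]
    rw [Finset.sum_congr rfl (g := fun _ => k)]
    · simp
    · intro i _
      rw [← hk i]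
      simp
  have h1 : ∀ i, (((univ ×ˢ univ : Finset (Fin v × Fin v)).filter
      (fun z => (T i).Accepts z.1 z.2)).card : ℝ) ≤ (T i).wt * ((lam * κ i) * (2 * v)) := by
    intro i
    have h2 := lprot_bound (fun R X Y => ∀ x ∈ X, ∀ x' ∈ X, x ≠ x' →
        (Y.filter (fun b => R x b ∧ R x' b)).card ≤ lam)
      (fun R R' X X' Y Y' hX hY hR hF x hx x' hx' hne => by
        refine (card_le_card ?_).trans (hF x (hX hx) x' (hX hx') hne)
        intro b hb
        rw [mem_filter] at hb ⊢
        exact ⟨hY hb.1, hR x hx b hb.1 hb.2.1, hR x' hx' b hb.1 hb.2.2⟩)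
      (NoMatching (κ i)) (lam * κ i)
      (fun R X Y hR hF => des_leaf hlam hR X Y hF) (T i) (hκ i) univ univ
      (fun x _ x' _ hne => by
        rw [← hB x x' hne]
        apply card_le_card
        intro b hb
        rw [mem_filter] at hb ⊢
        exact ⟨mem_univ _, hT i _ _ hb.2.1, hT i _ _ hb.2.2⟩)
    rw [card_univ, Fintype.card_fin] at h2
    have h3 : (T i).wt * (lam * κ i * (v + v)) = (T i).wt * ((lam * κ i) * (2 * v)) := by ring
    rw [h3] at h2
    exact_mod_cast h2
  have h2 : p * (v * k) ≤ ∑ z ∈ E, ∑ i, (if (T i).Accepts z.1 z.2 then q i else 0) := by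
    have h3 : p * (v * k : ℝ) = ∑ _z ∈ E, p := by
      rw [sum_const, hEc, nsmul_eq_mul]
      push_cast
      ring
    rw [h3]
    apply sum_le_sum
    intro z hz
    rw [hE, mem_filter] at hz
    exact hp _ _ hz.2
  rw [sum_comm] at h2
  have h4 : ∀ i, ∑ z ∈ E, (if (T i).Accepts z.1 z.2 then q i else 0) ≤
      q i * ((T i).wt * ((lam * κ i) * (2 * v))) := by
    intro i
    rw [← sum_filter, sum_const, nsmul_eq_mul, mul_comm]
    apply mul_le_mul_of_nonneg_left _ (hq i)
    refine le_trans ?_ (h1 i)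
    apply Nat.cast_le.2
    apply card_le_card
    intro z hz
    rw [mem_filter] at hz ⊢
    exact ⟨by simp, hz.2⟩
  have h5 := h2.trans (sum_le_sum fun i _ => h4 i)
  have hv0 : (0 : ℝ) < v := by exact_mod_cast hv
  have h6 : (v : ℝ) * (p * k) ≤ (v : ℝ) * (2 * lam * ∑ i, q i * ((T i).wt * κ i)) := by
    calc (v : ℝ) * (p * k) = p * (v * k) := by ring
      _ ≤ ∑ i, q i * ((T i).wt * ((lam * κ i) * (2 * v))) := h5
      _ = _ := by
        rw [mul_sum, mul_sum]
        apply sum_congr rfl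
        intro i _
        ring
  exact le_of_mul_le_mul_left h6 hv0

/-- semilinear designs -/
theorem semilinear_bound {lam v k : ℕ} (hv : 1 ≤ v) (hlam : 1 ≤ lam) (B : Fin v → Finset (Fin v))
    (hk : ∀ i, (B i).card = k)
    (hB : ∀ x y : Fin v, x ≠ y →
      (Finset.univ.filter (fun i => x ∈ B i ∧ y ∈ B i)).card = lam)
    (s : ℕ) (f g : Fin s → Fin v → ℝ) (φ : (Fin s → Prop) → Prop)
    (hφ : ∀ x b, x ∈ B b ↔ φ (fun j => f j x < g j b)) :
    (k : ℝ) ≤ 2 * lam * (2 * (Nat.log 2 v : ℝ) + 5) ^ s := by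
  classical
  have hL : 2 * Fintype.card (Fin v) ≤ 2 ^ (Nat.log 2 v + 2) := by
    have := Nat.lt_pow_succ_log_self (b := 2) (by norm_num) v
    rw [Fintype.card_fin, pow_succ]
    rw [Nat.succ_eq_add_one] at this
    omega
  obtain ⟨T, ha, hw, hl⟩ := build (V := Fin v) (Nat.log 2 v + 2) hL s f g φ
  have h1 := design_bound hv hlam B hk hB 1 1 (fun _ => T) (fun _ => 1) (fun _ => 1)
    (fun _ => zero_le_one) (fun _ => hl) (fun _ x b h => (hφ x b).2 ((ha x b).1 h)) (by
      intro x b hxb
      have : T.Accepts x b := (ha x b).2 ((hφ x b).1 hxb)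
      simp [this])
  simp only [univ_unique, sum_singleton, one_mul, Nat.cast_one, mul_one, hw] at h1
  refine h1.trans (le_of_eq ?_)
  push_cast
  ring

lemma v_le {lam v k : ℕ} (hv : 1 ≤ v) (hlam : 1 ≤ lam) (B : Fin v → Finset (Fin v))
    (hk : ∀ i, (B i).card = k)
    (hB : ∀ x y : Fin v, x ≠ y →
      (Finset.univ.filter (fun i => x ∈ B i ∧ y ∈ B i)).card = lam) : (v : ℝ) ≤ 1 + (k : ℝ) ^ 2 := by
  have h := ident v k lam hv B hk hB
  have h1 : v - 1 ≤ lam * (v - 1) := Nat.le_mul_of_pos_left _ hlam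
  have h2 : v ≤ 1 + k * k := by omega
  have h3 : (v : ℝ) ≤ ((1 + k * k : ℕ) : ℝ) := by exact_mod_cast h2
  push_cast at h3
  nlinarith

/-- powers of logarithms are small -/
lemma log_bounded (s : ℕ) (K : ℝ) : ∃ n₀ : ℕ, ∀ n : ℕ, (n : ℝ) ≤
    1 + K * ((2 * (Nat.log 2 n : ℝ) + 5) ^ s) ^ 2 → n ≤ n₀ := by
  have hlim : Filter.Tendsto (fun n : ℕ => (n : ℝ) ^ (1 / 2 : ℝ)) Filter.atTop Filter.atTop :=
    (tendsto_rpow_atTop (by norm_num)).comp tendsto_natCast_atTop_atTop
  set a : ℝ := 1 / (4 * ((s : ℝ) + 1)) with ha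
  have ha0 : 0 < a := by positivity
  have hl2 : 0 < Real.log 2 := Real.log_pos (by norm_num)
  set c : ℝ := 2 / (a * Real.log 2) + 5 with hc
  have hc0 : 0 < c := by positivity
  obtain ⟨n₀, hn₀⟩ := (hlim.eventually_gt_atTop (1 + |K| * (c ^ s) ^ 2)).exists_forall_of_atTop
  refine ⟨max n₀ 1, ?_⟩
  intro n hn
  by_contra hcon
  push Not at hcon
  have hn1 : 1 ≤ n := (le_max_right _ _).trans hcon.le
  have hnR : (1 : ℝ) ≤ n := by exact_mod_cast hn1
  have hn0 : (0 : ℝ) < n := by linarith
  have h1 := hn₀ n ((le_max_left _ _).trans hcon.le)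
  have h2 : (Nat.log 2 n : ℝ) ≤ (n : ℝ) ^ a / a / Real.log 2 := by
    have e1 : (Nat.log 2 n : ℝ) ≤ Real.logb 2 n := Real.natLog_le_logb n 2
    have e2 : Real.logb 2 n = Real.log n / Real.log 2 := rfl
    have e3 := Real.log_le_rpow_div hn0.le ha0
    rw [e2] at e1
    exact e1.trans (div_le_div_of_nonneg_right e3 hl2.le)
  have h3 : (1 : ℝ) ≤ (n : ℝ) ^ a := Real.one_le_rpow hnR ha0.le
  have h4 : 2 * (Nat.log 2 n : ℝ) + 5 ≤ c * (n : ℝ) ^ a := by
    have e1 : c * (n : ℝ) ^ a = 2 * ((n : ℝ) ^ a / a / Real.log 2) + 5 * (n : ℝ) ^ a := by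
      rw [hc]
      field_simp
    rw [e1]
    linarith
  have h5 : ((2 * (Nat.log 2 n : ℝ) + 5) ^ s) ^ 2 ≤ (c ^ s) ^ 2 * (n : ℝ) ^ (1 / 2 : ℝ) := by
    calc ((2 * (Nat.log 2 n : ℝ) + 5) ^ s) ^ 2 ≤ ((c * (n : ℝ) ^ a) ^ s) ^ 2 :=
          pow_le_pow_left₀ (by positivity) (pow_le_pow_left₀ (by positivity) h4 _) _
      _ = (c ^ s) ^ 2 * (n : ℝ) ^ (a * s * 2) := by
          rw [mul_pow, mul_pow, ← Real.rpow_natCast ((n : ℝ) ^ a), ← Real.rpow_mul hn0.le,
            ← Real.rpow_natCast ((n : ℝ) ^ (a * s)), ← Real.rpow_mul hn0.le]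
          norm_num
      _ ≤ (c ^ s) ^ 2 * (n : ℝ) ^ (1 / 2 : ℝ) := by
          apply mul_le_mul_of_nonneg_left _ (by positivity)
          apply Real.rpow_le_rpow_of_exponent_le hnR
          have hs : (0 : ℝ) ≤ s := Nat.cast_nonneg _
          rw [ha, div_mul_eq_mul_div, div_mul_eq_mul_div, div_le_div_iff₀ (by positivity) (by norm_num)]
          nlinarith
  have h6 : (n : ℝ) = (n : ℝ) ^ (1 / 2 : ℝ) * (n : ℝ) ^ (1 / 2 : ℝ) := by
    rw [← Real.rpow_add hn0]
    norm_num
  have h7 : (1 : ℝ) ≤ (n : ℝ) ^ (1 / 2 : ℝ) := Real.one_le_rpow hnR (by norm_num)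
  have h8 : K * ((2 * (Nat.log 2 n : ℝ) + 5) ^ s) ^ 2 ≤
      |K| * ((c ^ s) ^ 2 * (n : ℝ) ^ (1 / 2 : ℝ)) :=
    mul_le_mul (le_abs_self K) h5 (by positivity) (abs_nonneg K)
  have h9 : (n : ℝ) ≤ (1 + |K| * (c ^ s) ^ 2) * (n : ℝ) ^ (1 / 2 : ℝ) := by
    calc (n : ℝ) ≤ 1 + K * ((2 * (Nat.log 2 n : ℝ) + 5) ^ s) ^ 2 := hn
      _ ≤ (n : ℝ) ^ (1 / 2 : ℝ) + |K| * ((c ^ s) ^ 2 * (n : ℝ) ^ (1 / 2 : ℝ)) := add_le_add h7 h8
      _ = _ := by ring
  have h10 : (1 + |K| * (c ^ s) ^ 2) * (n : ℝ) ^ (1 / 2 : ℝ) <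
      (n : ℝ) ^ (1 / 2 : ℝ) * (n : ℝ) ^ (1 / 2 : ℝ) :=
    mul_lt_mul_of_pos_right h1 (by linarith)
  rw [← h6] at h10
  linarith

theorem result :
    (∀ (V : Type) (T : LProt V), T.wt ≤ (2 * T.size + 1) ^ T.depth) ∧
    -- (1) random protocols with equality queries and comparisons
    (∀ (lam v k : ℕ) (B : Fin v → Finset (Fin v)), 1 ≤ v → 1 ≤ lam → (∀ i, (B i).card = k) →
      (∀ x y : Fin v, x ≠ y →
        (Finset.univ.filter (fun i => x ∈ B i ∧ y ∈ B i)).card = lam) →
      (v : ℝ) ≤ 1 + (k : ℝ) ^ 2 ∧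
      ∀ (p : ℝ) (N : ℕ) (T : Fin N → LProt (Fin v)) (κ : Fin N → ℕ) (q : Fin N → ℝ),
        (∀ i, 0 ≤ q i) → (∀ i, (T i).Leaves (NoMatching (κ i))) →
        (∀ i x b, (T i).Accepts x b → x ∈ B b) →
        (∀ x b, x ∈ B b → p ≤ open Classical in ∑ i, if (T i).Accepts x b then q i else 0) →
        p * k ≤ 2 * lam * ∑ i, q i * ((T i).wt * κ i)) ∧
    -- (2) semilinear designs
    (∀ (lam v k : ℕ) (B : Fin v → Finset (Fin v)), 1 ≤ v → 1 ≤ lam → (∀ i, (B i).card = k) →
      (∀ x y : Fin v, x ≠ y →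
        (Finset.univ.filter (fun i => x ∈ B i ∧ y ∈ B i)).card = lam) →
      ∀ (s : ℕ) (f g : Fin s → Fin v → ℝ) (φ : (Fin s → Prop) → Prop),
        (∀ x b, x ∈ B b ↔ φ (fun j => f j x < g j b)) →
        (k : ℝ) ≤ 2 * lam * (2 * (Nat.log 2 v : ℝ) + 5) ^ s) ∧
    -- (3) Hall's conjecture for semilinear designs
    (∀ lam s : ℕ, 1 ≤ lam → ∃ N : ℕ, ∀ (v k : ℕ) (B : Fin v → Finset (Fin v)),
      (∀ i, (B i).card = k) →
      (∀ x y : Fin v, x ≠ y →
        (Finset.univ.filter (fun i => x ∈ B i ∧ y ∈ B i)).card = lam) →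
      (∃ (f g : Fin s → Fin v → ℝ) (φ : (Fin s → Prop) → Prop),
        ∀ x b, x ∈ B b ↔ φ (fun j => f j x < g j b)) → v ≤ N) := by
  refine ⟨fun V T => T.wt_le_pow, ?_, ?_, ?_⟩
  · intro lam v k B hv hlam hk hB
    refine ⟨v_le hv hlam B hk hB, ?_⟩
    intro p N T κ q hq hκ hT hp
    exact design_bound hv hlam B hk hB p N T κ q hq hκ hT (fun x b h => by convert hp x b h)
  · intro lam v k B hv hlam hk hB s f g φ hφ
    exact semilinear_bound hv hlam B hk hB s f g φ hφ
  · intro lam s hlam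
    obtain ⟨N, hN⟩ := log_bounded s ((2 * lam) ^ 2)
    refine ⟨N, ?_⟩
    rintro v k B hk hB ⟨f, g, φ, hφ⟩
    rcases Nat.eq_zero_or_pos v with h0 | hv
    · omega
    apply hN
    have h1 := semilinear_bound hv hlam B hk hB s f g φ hφ
    have h2 := v_le hv hlam B hk hB
    have h3 : (k : ℝ) ^ 2 ≤ (2 * lam * (2 * (Nat.log 2 v : ℝ) + 5) ^ s) ^ 2 :=
      pow_le_pow_left₀ (Nat.cast_nonneg _) h1 2
    rw [mul_pow] at h3
    linarith

end Pool.Agent.Results.MP_c38931_co.SemilinearDesigns
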